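import Mathlib

set_option autoImplicit false

namespace Pool.Agent.Results.MP_1e0c69_ag.Disproof

open MvPolynomial

/-- `HasWaring d F w`: the polynomial `F` is a sum of `w` many `d`-th powers of
linear forms (homogeneous polynomials of degree one, zero included) in the same variables. -/
def HasWaring {σ : Type} (d : ℕ) (F : MvPolynomial σ ℂ) (w : ℕ) : Prop :=
  ∃ l : Fin w → MvPolynomial σ ℂ, (∀ i, (l i).IsHomogeneous 1) ∧ F = ∑ i, (l i) ^ d

/-- The Waring rank of `F` in degree `d`: the least number `w` such that `F` is a sum of `w`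
many `d`-th powers of linear forms (the value is `⊤` if there is no such `w`). -/
noncomputable def waringRank {σ : Type} (d : ℕ) (F : MvPolynomial σ ℂ) : ℕ∞ :=
  ⨅ w : {w : ℕ // HasWaring d F w}, ((w : ℕ) : ℕ∞)

/-- The form `f + u g` in the variables `x_1, …, x_n, u` (the new variable `u` is `X none`,
the old variables are `X (some i)`). -/
noncomputable def adjoin {n : ℕ} (f g : MvPolynomial (Fin n) ℂ) :
    MvPolynomial (Option (Fin n)) ℂ :=
  rename some f + X none * rename some g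

lemma eval_linear {σ : Type} [Fintype σ] [DecidableEq σ] (l : MvPolynomial σ ℂ)
    (hl : l.IsHomogeneous 1) :
    ∃ a : σ → ℂ, ∀ x : σ → ℂ, eval x l = ∑ i, a i * x i := by
  refine ⟨fun i => coeff (Finsupp.single i 1) l, fun x => ?_⟩
  have h1 : l = ∑ i, C (coeff (Finsupp.single i 1) l) * X i := by
    ext m
    simp only [coeff_sum, coeff_C_mul, coeff_X]
    by_cases hm : ∃ i, m = Finsupp.single i 1
    · obtain ⟨i, rfl⟩ := hm
      rw [Finset.sum_eq_single i]
      · simp
      · intro j _ hj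
        have : ¬ (Finsupp.single j 1 = Finsupp.single i (1 : ℕ)) := by
          intro h
          exact hj ((Finsupp.single_left_inj one_ne_zero).1 h)
        simp [this]
      · simp
    · have h0 : coeff m l = 0 := by
        by_contra hne
        apply hm
        have hd := hl hne
        have hd' : m.sum (fun _ n => n) = 1 := by
          rw [← hd]
          simp [Finsupp.weight_apply]
        exact (Finsupp.sum_eq_one_iff m).1 hd'
      rw [h0]
      symm
      apply Finset.sum_eq_zero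
      intro j _
      have : ¬ (Finsupp.single j 1 = m) := fun h => hm ⟨j, h.symm⟩
      simp [this]
  conv_lhs => rw [h1]
  simp

/-- the cubic form `f = 3 (x + y) (y + z) (z + x)` -/
noncomputable def fForm : MvPolynomial (Fin 3) ℂ :=
  3 * ((X 0 + X 1) * (X 1 + X 2) * (X 2 + X 0))

/-- the quadratic form `g = 6 (x y + y z + z x)` -/
noncomputable def gForm : MvPolynomial (Fin 3) ℂ :=
  6 * (X 0 * X 1 + X 1 * X 2 + X 2 * X 0)

/-- vanishing of a `3 × 3` minor of a matrix of rank at most two -/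
lemma minor_zero (a1 b1 c1 a2 b2 c2 p1 q1 r1 p2 q2 r2 : ℂ) :
    (a1 * p1 + a2 * p2) * ((b1 * q1 + b2 * q2) * (c1 * r1 + c2 * r2)
        - (b1 * r1 + b2 * r2) * (c1 * q1 + c2 * q2))
      - (a1 * q1 + a2 * q2) * ((b1 * p1 + b2 * p2) * (c1 * r1 + c2 * r2)
        - (b1 * r1 + b2 * r2) * (c1 * p1 + c2 * p2))
      + (a1 * r1 + a2 * r2) * ((b1 * p1 + b2 * p2) * (c1 * q1 + c2 * q2)
        - (b1 * q1 + b2 * q2) * (c1 * p1 + c2 * p2)) = 0 := by
  ring

/-- the binary form `3 x z^2` is not a sum of two cubes -/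
lemma binary_aux (a1 c1 a2 c2 : ℂ) (h1 : a1 ^ 3 + a2 ^ 3 = 0)
    (h2 : a1 ^ 2 * c1 + a2 ^ 2 * c2 = 0) (h3 : a1 * c1 ^ 2 + a2 * c2 ^ 2 = 1) : False := by
  by_cases ha : a2 = 0
  · subst ha
    have : a1 = 0 := by
      have : a1 ^ 3 = 0 := by linear_combination h1
      exact pow_eq_zero_iff (by norm_num) |>.1 this
    subst this
    norm_num at h3
  · have h4 : a2 ^ 3 = 0 := by
      have e1 : a2 ^ 3 * (a1 * c1 ^ 2 + a2 * c2 ^ 2) = 0 := by
        linear_combination (a1 * c1 ^ 2) * h1 + (a2 ^ 2 * c2 - a1 ^ 2 * c1) * h2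
      rw [h3] at e1
      linear_combination e1
    exact ha (pow_eq_zero_iff (by norm_num) |>.1 h4)

/-- The case in which one of the three parameters vanishes. -/
lemma core (a1 b1 c1 a2 b2 c2 A B D E : ℂ)
    (exxx : a1 ^ 3 + a2 ^ 3 = 0) (eyyy : b1 ^ 3 + b2 ^ 3 = 0) (ezzz : c1 ^ 3 + c2 ^ 3 = 0)
    (exxy : a1 ^ 2 * b1 + a2 ^ 2 * b2 = A) (exxz : a1 ^ 2 * c1 + a2 ^ 2 * c2 = A)
    (exyy : a1 * b1 ^ 2 + a2 * b2 ^ 2 = B) (eyyz : b1 ^ 2 * c1 + b2 ^ 2 * c2 = B)
    (exzz : a1 * c1 ^ 2 + a2 * c2 ^ 2 = D) (eyzz : b1 * c1 ^ 2 + b2 * c2 ^ 2 = D)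
    (exyz : a1 * b1 * c1 + a2 * b2 * c2 = E) (hE : 2 * E = A + B + D - 1) (hA : A = 0) :
    False := by
  have eyyy' : b1 * b1 ^ 2 + b2 * b2 ^ 2 = 0 := by linear_combination eyyy
  have ezzz' : c1 * c1 ^ 2 + c2 * c2 ^ 2 = 0 := by linear_combination ezzz
  have cyy : c1 * b1 ^ 2 + c2 * b2 ^ 2 = B := by linear_combination eyyz
  have dyz : a1 * (b1 * c1) + a2 * (b2 * c2) = E := by linear_combination exyz
  have dyz' : b1 * (b1 * c1) + b2 * (b2 * c2) = B := by linear_combination eyyz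
  have dyz'' : c1 * (b1 * c1) + c2 * (b2 * c2) = D := by linear_combination eyzz
  have dxz : a1 * (a1 * c1) + a2 * (a2 * c2) = A := by linear_combination exxz
  have dxz' : b1 * (a1 * c1) + b2 * (a2 * c2) = E := by linear_combination exyz
  have dxz'' : c1 * (a1 * c1) + c2 * (a2 * c2) = D := by linear_combination exzz
  have dxy : a1 * (a1 * b1) + a2 * (a2 * b2) = A := by linear_combination exxy
  have dxy' : b1 * (a1 * b1) + b2 * (a2 * b2) = B := by linear_combination exyy
  have dxy'' : c1 * (a1 * b1) + c2 * (a2 * b2) = E := by linear_combination exyz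
  have m2 := minor_zero a1 b1 c1 a2 b2 c2 (b1 * c1) (a1 * c1) (a1 * b1)
    (b2 * c2) (a2 * c2) (a2 * b2)
  rw [dyz, dyz', dyz'', dxz, dxz', dxz'', dxy, dxy', dxy''] at m2
  have m3 := minor_zero a1 b1 c1 a2 b2 c2 (b1 ^ 2) (c1 ^ 2) (b1 * c1) (b2 ^ 2) (c2 ^ 2) (b2 * c2)
  rw [exyy, eyyy', cyy, exzz, eyzz, ezzz', dyz, dyz', dyz''] at m3
  have m4 := minor_zero a1 b1 c1 a2 b2 c2 (b1 ^ 2) (c1 ^ 2) (a1 * c1) (b2 ^ 2) (c2 ^ 2) (a2 * c2)
  rw [exyy, eyyy', cyy, exzz, eyzz, ezzz', dxz, dxz', dxz''] at m4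
  have m5 := minor_zero a1 b1 c1 a2 b2 c2 (b1 ^ 2) (c1 ^ 2) (a1 * b1) (b2 ^ 2) (c2 ^ 2) (a2 * b2)
  rw [exyy, eyyy', cyy, exzz, eyzz, ezzz', dxy, dxy', dxy''] at m5
  rw [hA] at m2 m4 m5 hE exxy exxz
  have key : ∀ T : ℂ, T ^ 3 = 0 → T = 0 := fun T hT => pow_eq_zero_iff (by norm_num) |>.1 hT
  by_cases hB : B = 0
  · -- then `E = 0` and `D = 1`
    rw [hB] at m2 hE
    have hE0 : E = 0 := key E (by linear_combination m2)
    have hD1 : D = 1 := by linear_combination (-1) * hE + 2 * hE0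
    exact binary_aux a1 c1 a2 c2 exxx exxz (by rw [exzz, hD1])
  · by_cases hD : D = 0
    · rw [hD] at m2 hE
      have hE0 : E = 0 := key E (by linear_combination m2)
      have hB1 : B = 1 := by linear_combination (-1) * hE + 2 * hE0
      exact binary_aux a1 b1 a2 b2 exxx exxy (by rw [exyy, hB1])
    · have hBD : B * D ≠ 0 := mul_ne_zero hB hD
      have k3 : B + D - E = 0 := by
        have : B * D * (B + D - E) = 0 := by linear_combination m3
        exact (mul_eq_zero.1 this).resolve_left hBD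
      have k4 : D + E = 0 := by
        have : B * D * (D + E) = 0 := by linear_combination m4
        exact (mul_eq_zero.1 this).resolve_left hBD
      have k5 : B + E = 0 := by
        have : B * D * (B + E) = 0 := by linear_combination m5
        exact (mul_eq_zero.1 this).resolve_left hBD
      have hE0 : E = 0 := by linear_combination (-1/3) * k3 + (1/3) * k4 + (1/3) * k5
      exact hB (by linear_combination k5 - hE0)

/-- the ternary form `f + v g` is never a sum of two cubes of linear forms -/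
lemma no_two_cubes (a1 b1 c1 a2 b2 c2 p q r : ℂ)
    (h : ∀ x y z : ℂ, 3 * ((x + y) * (y + z) * (z + x))
      + (p * x + q * y + r * z) * (6 * (x * y + y * z + z * x))
      = (a1 * x + b1 * y + c1 * z) ^ 3 + (a2 * x + b2 * y + c2 * z) ^ 3) : False := by
  have h100 := h 1 0 0
  have h010 := h 0 1 0
  have h001 := h 0 0 1
  have h110 := h 1 1 0
  have h1m0 := h 1 (-1) 0
  have h101 := h 1 0 1
  have h10m := h 1 0 (-1)
  have h011 := h 0 1 1
  have h01m := h 0 1 (-1)
  have h111 := h 1 1 1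
  have exxx : a1 ^ 3 + a2 ^ 3 = 0 := by linear_combination (-1) * h100
  have eyyy : b1 ^ 3 + b2 ^ 3 = 0 := by linear_combination (-1) * h010
  have ezzz : c1 ^ 3 + c2 ^ 3 = 0 := by linear_combination (-1) * h001
  obtain ⟨A, hA⟩ : ∃ A : ℂ, A = 1 + 2 * p := ⟨_, rfl⟩
  obtain ⟨B, hB⟩ : ∃ B : ℂ, B = 1 + 2 * q := ⟨_, rfl⟩
  obtain ⟨D, hD⟩ : ∃ D : ℂ, D = 1 + 2 * r := ⟨_, rfl⟩
  obtain ⟨E, hE⟩ : ∃ E : ℂ, 2 * E = A + B + D - 1 := ⟨(A + B + D - 1) / 2, by ring⟩
  have exxy : a1 ^ 2 * b1 + a2 ^ 2 * b2 = A := by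
    linear_combination (-1/6) * h110 + (1/6) * h1m0 + (1/3) * h010 - hA
  have exyy : a1 * b1 ^ 2 + a2 * b2 ^ 2 = B := by
    linear_combination (-1/6) * h110 - (1/6) * h1m0 + (1/3) * h100 - hB
  have exxz : a1 ^ 2 * c1 + a2 ^ 2 * c2 = A := by
    linear_combination (-1/6) * h101 + (1/6) * h10m + (1/3) * h001 - hA
  have exzz : a1 * c1 ^ 2 + a2 * c2 ^ 2 = D := by
    linear_combination (-1/6) * h101 - (1/6) * h10m + (1/3) * h100 - hD
  have eyyz : b1 ^ 2 * c1 + b2 ^ 2 * c2 = B := by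
    linear_combination (-1/6) * h011 + (1/6) * h01m + (1/3) * h001 - hB
  have eyzz : b1 * c1 ^ 2 + b2 * c2 ^ 2 = D := by
    linear_combination (-1/6) * h011 - (1/6) * h01m + (1/3) * h010 - hD
  have exyz : a1 * b1 * c1 + a2 * b2 * c2 = E := by
    linear_combination (-1/6) * h111 - (1/6) * exxx - (1/6) * eyyy - (1/6) * ezzz
      - (1/2) * exxy - (1/2) * exyy - (1/2) * exxz - (1/2) * exzz - (1/2) * eyyz - (1/2) * eyzz
      - (1/2) * hE - (3/2) * hA - (3/2) * hB - (3/2) * hD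
  have m1 := minor_zero a1 b1 c1 a2 b2 c2 (a1 ^ 2) (b1 ^ 2) (c1 ^ 2) (a2 ^ 2) (b2 ^ 2) (c2 ^ 2)
  have cxxx : a1 * a1 ^ 2 + a2 * a2 ^ 2 = 0 := by linear_combination exxx
  have cyyy : b1 * b1 ^ 2 + b2 * b2 ^ 2 = 0 := by linear_combination eyyy
  have czzz : c1 * c1 ^ 2 + c2 * c2 ^ 2 = 0 := by linear_combination ezzz
  have cxx : b1 * a1 ^ 2 + b2 * a2 ^ 2 = A := by linear_combination exxy
  have cxx' : c1 * a1 ^ 2 + c2 * a2 ^ 2 = A := by linear_combination exxz
  have cyy : c1 * b1 ^ 2 + c2 * b2 ^ 2 = B := by linear_combination eyyz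
  have hABD : A * (B * D) = 0 := by
    rw [cxxx, cyyy, czzz, exyy, exzz, cxx, cxx', cyy, eyzz] at m1
    linear_combination (1/2) * m1
  rcases mul_eq_zero.1 hABD with h0 | h0
  · exact core a1 b1 c1 a2 b2 c2 A B D E exxx eyyy ezzz exxy exxz exyy eyyz exzz eyzz exyz hE h0
  · rcases mul_eq_zero.1 h0 with h0 | h0
    · -- exchange `x` and `y`
      exact core b1 a1 c1 b2 a2 c2 B A D E eyyy exxx ezzz
        (by linear_combination exyy) eyyz (by linear_combination exxy) exxz eyzz exzz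
        (by linear_combination exyz) (by linear_combination hE) h0
    · -- exchange `x` and `z`
      exact core c1 b1 a1 c2 b2 a2 D B A E ezzz eyyy exxx
        (by linear_combination eyzz) (by linear_combination exzz)
        (by linear_combination eyyz) (by linear_combination exyy)
        (by linear_combination exxz) (by linear_combination exxy)
        (by linear_combination exyz) (by linear_combination hE) h0

/-- a sum of at most two cubes is a sum of exactly two cubes -/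
lemma two_of_le {F : MvPolynomial (Fin 3) ℂ} {w : ℕ} (hw : w ≤ 2) (h : HasWaring 3 F w) :
    HasWaring 3 F 2 := by
  obtain ⟨l, hl, hF⟩ := h
  interval_cases w
  · refine ⟨fun _ => 0, fun _ => isHomogeneous_zero _ _ _, ?_⟩
    rw [hF]
    simp
  · refine ⟨![l 0, 0], ?_, ?_⟩
    · intro i
      fin_cases i
      · exact hl 0
      · exact isHomogeneous_zero _ _ _
    · rw [hF]
      simp [Fin.sum_univ_two]
  · exact ⟨l, hl, hF⟩

lemma rank_ge_three (v : MvPolynomial (Fin 3) ℂ) (hv : v.IsHomogeneous 1) :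
    3 ≤ waringRank 3 (fForm + v * gForm) := by
  refine le_iInf ?_
  rintro ⟨w, hw⟩
  by_contra hlt
  have hlt' : w < 3 := by
    have := not_le.1 hlt
    exact_mod_cast this
  obtain ⟨l, hl, hF⟩ := two_of_le (by omega) hw
  obtain ⟨a, ha⟩ := eval_linear (l 0) (hl 0)
  obtain ⟨b, hb⟩ := eval_linear (l 1) (hl 1)
  obtain ⟨c, hc⟩ := eval_linear v hv
  refine no_two_cubes (a 0) (a 1) (a 2) (b 0) (b 1) (b 2) (c 0) (c 1) (c 2) ?_
  intro x y z
  have h1 := congrArg (eval ![x, y, z]) hF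
  rw [Fin.sum_univ_two] at h1
  simp only [fForm, gForm, map_add, map_mul, map_pow, eval_X, ha, hb, hc, Fin.sum_univ_three,
    map_ofNat] at h1
  simpa using h1

lemma rank_le_five : waringRank 3 (adjoin fForm gForm) ≤ 5 := by
  obtain ⟨t, ht⟩ : ∃ t : ℂ, t ^ 3 = 2 := IsAlgClosed.exists_pow_nat_eq (2 : ℂ) (by norm_num)
  have h : HasWaring 3 (adjoin fForm gForm) 5 := by
    refine ⟨![X none + X (some 0) + X (some 1) + X (some 2), C (-1) * (X none + X (some 0)),
      C (-1) * (X none + X (some 1)), C (-1) * (X none + X (some 2)), C t * X none], ?_, ?_⟩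
    · intro i
      have hX : ∀ j : Option (Fin 3), (X j : MvPolynomial (Option (Fin 3)) ℂ).IsHomogeneous 1 :=
        fun j => isHomogeneous_X ℂ j
      have hC : ∀ (s : ℂ) (q : MvPolynomial (Option (Fin 3)) ℂ), q.IsHomogeneous 1 →
          (C s * q).IsHomogeneous 1 := by
        intro s q hq
        simpa using (isHomogeneous_C _ s).mul hq
      fin_cases i
      · exact (((hX _).add (hX _)).add (hX _)).add (hX _)
      · exact hC _ _ ((hX _).add (hX _))
      · exact hC _ _ ((hX _).add (hX _))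
      · exact hC _ _ ((hX _).add (hX _))
      · exact hC _ _ (hX _)
    · have ht' : (C t : MvPolynomial (Option (Fin 3)) ℂ) ^ 3 = 2 := by
        rw [← map_pow, ht]
        exact map_ofNat C 2
      simp only [adjoin, fForm, gForm, map_add, map_mul, rename_X, map_ofNat, Fin.sum_univ_five]
      simp only [Matrix.cons_val_zero, Matrix.cons_val_one, Matrix.cons_val, map_neg, map_one]
      linear_combination (X none : MvPolynomial (Option (Fin 3)) ℂ) ^ 3 * (-1) * ht'
  exact iInf_le (fun w : {w : ℕ // HasWaring 3 (adjoin fForm gForm) w} => ((w : ℕ) : ℕ∞)) ⟨5, h⟩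

/-- The inequality `WR(f + u g) ≥ d + min_v WR(f + v g)` fails for suitable forms `f`, `g` of
degrees `d`, `d - 1` in `n` variables. -/
theorem result :
    ∃ (n d : ℕ) (f g : MvPolynomial (Fin n) ℂ), 1 ≤ n ∧ 1 ≤ d ∧
      f.IsHomogeneous d ∧ f ≠ 0 ∧ g.IsHomogeneous (d - 1) ∧ g ≠ 0 ∧
      waringRank d (adjoin f g) <
        (d : ℕ∞) + ⨅ v : {v : MvPolynomial (Fin n) ℂ // v.IsHomogeneous 1},
          waringRank d (f + (v : MvPolynomial (Fin n) ℂ) * g) := by
  refine ⟨3, 3, fForm, gForm, by norm_num, by norm_num, ?_, ?_, ?_, ?_, ?_⟩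
  · have hX : ∀ i j : Fin 3, (X i + X j : MvPolynomial (Fin 3) ℂ).IsHomogeneous 1 :=
      fun i j => (isHomogeneous_X ℂ i).add (isHomogeneous_X ℂ j)
    have h3 : (C (3 : ℂ) : MvPolynomial (Fin 3) ℂ) = 3 := map_ofNat C 3
    have := (isHomogeneous_C (Fin 3) (3 : ℂ)).mul (((hX 0 1).mul (hX 1 2)).mul (hX 2 0))
    rw [h3] at this
    simpa [fForm] using this
  · intro h
    have := congrArg (eval (fun _ => (1 : ℂ))) h
    simp only [fForm, map_mul, map_add, eval_X, map_ofNat, map_zero] at this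
    norm_num at this
  · have hX : ∀ i j : Fin 3, (X i * X j : MvPolynomial (Fin 3) ℂ).IsHomogeneous 2 :=
      fun i j => (isHomogeneous_X ℂ i).mul (isHomogeneous_X ℂ j)
    have h6 : (C (6 : ℂ) : MvPolynomial (Fin 3) ℂ) = 6 := map_ofNat C 6
    have := (isHomogeneous_C (Fin 3) (6 : ℂ)).mul (((hX 0 1).add (hX 1 2)).add (hX 2 0))
    rw [h6] at this
    simpa [gForm] using this
  · intro h
    have := congrArg (eval (fun _ => (1 : ℂ))) h
    simp only [gForm, map_mul, map_add, eval_X, map_ofNat, map_zero] at this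
    norm_num at this
  · have h1 : (3 : ℕ∞) ≤ ⨅ v : {v : MvPolynomial (Fin 3) ℂ // v.IsHomogeneous 1},
        waringRank 3 (fForm + (v : MvPolynomial (Fin 3) ℂ) * gForm) :=
      le_iInf fun v => rank_ge_three v.1 v.2
    calc waringRank 3 (adjoin fForm gForm) ≤ 5 := rank_le_five
      _ < 3 + 3 := by norm_num
      _ ≤ _ := add_le_add le_rfl h1

end Pool.Agent.Results.MP_1e0c69_ag.Disproof
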